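import Mathlib

namespace Pool.Agent.Results.MP_62401a_nt.FourPerfect

open Finset

/-- `σ̃(n)`: the multiplicative function with
`σ̃(p^r) = p^r - p^(r-1) + p^(r-2) - ⋯ + (-1)^r`, that is, the product of these values over the
exact prime powers `p^r ∥ n` (with value `1` at `n = 1`). -/
def altSigma (n : ℕ) : ℤ :=
  ∏ p ∈ n.primeFactors, ∑ j ∈ range (n.factorization p + 1),
    (-1 : ℤ) ^ j * (p : ℤ) ^ (n.factorization p - j)

lemma altSigma_one : altSigma 1 = 1 := by simp [altSigma]

lemma altSigma_mul {p r m : ℕ} (hp : p.Prime) (hr : 0 < r) (hm : m ≠ 0) (hpm : ¬ p ∣ m) :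
    altSigma (p ^ r * m) =
      (∑ j ∈ range (r + 1), (-1 : ℤ) ^ j * (p : ℤ) ^ (r - j)) * altSigma m := by
  have hcop : Nat.Coprime (p ^ r) m := Nat.Coprime.pow_left r ((Nat.Prime.coprime_iff_not_dvd hp).mpr hpm)
  have hpf : (p ^ r * m).primeFactors = insert p m.primeFactors := by
    rw [hcop.primeFactors_mul, Nat.primeFactors_prime_pow hr.ne' hp]
    rfl
  have hnot : p ∉ m.primeFactors := fun h => hpm (Nat.dvd_of_mem_primeFactors h)
  have hfac : ∀ q, (p ^ r * m).factorization q = (if q = p then r else 0) + m.factorization q := by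
    intro q
    rw [Nat.factorization_mul (pow_ne_zero _ hp.ne_zero) hm, Finsupp.add_apply,
      hp.factorization_pow, Finsupp.single_apply]
    simp only [eq_comm]
  unfold altSigma
  rw [hpf, Finset.prod_insert hnot]
  have h0 : m.factorization p = 0 := Nat.factorization_eq_zero_of_not_dvd hpm
  congr 1
  · rw [hfac, if_pos rfl, h0, add_zero]
  · apply Finset.prod_congr rfl
    intro q hq
    have hqp : q ≠ p := fun h => hnot (h ▸ hq)
    rw [hfac, if_neg hqp, zero_add]

/-- The number `2^13·3^8·5·7^2·11·13·19·23·37·43^2·127·139` is `σ̃`-`4`-perfect. -/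
theorem result : ∃ k : ℕ, 4 ≤ k ∧ ∃ n : ℕ, 0 < n ∧ (k : ℤ) * altSigma n = n := by
  refine ⟨4, le_rfl, 2 ^ 13 * (3 ^ 8 * (5 ^ 1 * (7 ^ 2 * (11 ^ 1 * (13 ^ 1 * (19 ^ 1 * (23 ^ 1 *
    (37 ^ 1 * (43 ^ 2 * (127 ^ 1 * (139 ^ 1 * 1))))))))))), by norm_num, ?_⟩
  rw [altSigma_mul (by norm_num) (by norm_num) (by norm_num) (by norm_num),
    altSigma_mul (by norm_num) (by norm_num) (by norm_num) (by norm_num),
    altSigma_mul (by norm_num) (by norm_num) (by norm_num) (by norm_num),
    altSigma_mul (by norm_num) (by norm_num) (by norm_num) (by norm_num),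
    altSigma_mul (by norm_num) (by norm_num) (by norm_num) (by norm_num),
    altSigma_mul (by norm_num) (by norm_num) (by norm_num) (by norm_num),
    altSigma_mul (by norm_num) (by norm_num) (by norm_num) (by norm_num),
    altSigma_mul (by norm_num) (by norm_num) (by norm_num) (by norm_num),
    altSigma_mul (by norm_num) (by norm_num) (by norm_num) (by norm_num),
    altSigma_mul (by norm_num) (by norm_num) (by norm_num) (by norm_num),
    altSigma_mul (by norm_num) (by norm_num) (by norm_num) (by norm_num),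
    altSigma_mul (by norm_num) (by norm_num) (by norm_num) (by norm_num), altSigma_one]
  norm_num [Finset.sum_range_succ]

end Pool.Agent.Results.MP_62401a_nt.FourPerfect
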